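import Mathlib
import Pool.Agent.H23.DIP

set_option autoImplicit false

namespace Pool.Agent.Results.MP_acc005_lc.NoLeast

open Pool.Agent.H23.DIP

/-- The four-element chain with the drastic product. -/
def B := Fin 4
/-- The five-element Lukasiewicz chain. -/
def L := Fin 5

instance : LinearOrder B := inferInstanceAs (LinearOrder (Fin 4))
instance : LinearOrder L := inferInstanceAs (LinearOrder (Fin 5))
instance : Fintype B := inferInstanceAs (Fintype (Fin 4))
instance : Fintype L := inferInstanceAs (Fintype (Fin 5))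

instance : FLew B where
  toBoundedOrder := inferInstanceAs (BoundedOrder (Fin 4))
  mul (x y : Fin 4) := if x = 3 then y else if y = 3 then x else (0 : Fin 4)
  one := (3 : Fin 4)
  imp (x y : Fin 4) := if x ≤ y then (3 : Fin 4) else if x = 3 then y else (2 : Fin 4)
  mul_assoc := by decide
  mul_comm := by decide
  one_mul := by decide
  mul_one := by decide
  res := by decide
  one_eq := rfl

instance : FLew L where
  toBoundedOrder := inferInstanceAs (BoundedOrder (Fin 5))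
  mul (x y : Fin 5) := (⟨x + y - 4, by omega⟩ : Fin 5)
  one := (4 : Fin 5)
  imp (x y : Fin 5) := (⟨min 4 (4 + y - x), by omega⟩ : Fin 5)
  mul_assoc := by decide
  mul_comm := by decide
  one_mul := by decide
  mul_one := by decide
  res := by decide
  one_eq := rfl

open Fm in
theorem sep {A : Type} [FLew A] (x y : A) (h : ¬ ((x = 1 ↔ y = 1) ∧ (x ≤ ⊥ ↔ y ≤ ⊥) ∧
    (FLew.imp x ⊥ ≤ x ↔ FLew.imp y ⊥ ≤ y) ∧ (x ≤ FLew.imp x ⊥ ↔ y ≤ FLew.imp y ⊥))) :
    ∃ a, ¬ (a ∈ tr (fun _ => x) ↔ a ∈ tr fun _ => y) := by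
  by_contra! g
  exact h ⟨g (var 0), by simpa [tr, ev, imp_one] using g (imp (var 0) zero),
    by simpa [tr, ev, imp_one] using g (imp (imp (var 0) zero) (var 0)),
    by simpa [tr, ev, imp_one] using g (imp (var 0) (imp (var 0) zero))⟩

theorem key {A : Type} [FLew A] (h : Prelin A) {a b : A} (c : A) (h1 : FLew.imp a b ≤ a)
    (h2 : FLew.imp b ⊥ ≤ a) : FLew.imp (c * (c * a)) ⊥ ≤ FLew.imp c a := by
  have e : ∀ x y : A, FLew.imp x y * x ≤ y := fun x y => (FLew.res _ _ _).2 le_rfl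
  have a1 : FLew.imp (c * a) b ≤ FLew.imp c a := (FLew.res _ _ _).1
    (le_trans ((FLew.res _ _ _).1 (by rw [mul_assoc]; exact e _ _)) h1)
  have a2 : FLew.imp b (c * a) * FLew.imp (c * (c * a)) ⊥ ≤ FLew.imp c a := (FLew.res _ _ _).1
    (le_trans ((FLew.res _ _ _).1 (by
      rw [mul_assoc, mul_assoc, mul_comm c b, mul_left_comm _ b, ← mul_assoc]
      exact (mul_mono (e _ _) _).trans (by
        rw [mul_left_comm, mul_comm (c * a)]; exact e _ _))) h2)
  have := sup_le ((FLew.res _ _ _).1 (((mul_comm _ _).trans_le (mul_le (FLew.imp (c * (c * a)) ⊥) _)).trans a1))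
    ((FLew.res _ _ _).1 a2)
  rwa [h, ← FLew.res, one_mul] at this

theorem result : ¬ ∃ Ax₀ : Set Fm, Closed Ax₀ ∧ HasDIP (Cons Prelin Ax₀) ∧
    ∀ Ax : Set Fm, Closed Ax → HasDIP (Cons Prelin Ax) →
      ∀ Γ φ, Cons Prelin Ax₀ Γ φ → Cons Prelin Ax Γ φ := by
  rintro ⟨Ax, -, h1, h2⟩
  have gB := good_fin (C := Prelin) B (by unfold Prelin; decide) (by unfold Nil; decide)
    fun x y h => sep x y (by revert x y; decide)
  have gL := good_fin (C := Prelin) L (by unfold Prelin; decide) (by unfold Nil; decide)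
    fun x y h => sep x y (by revert x y; decide)
  let a := Fm.var 0
  let b := Fm.var 1
  let c := Fm.var 2
  obtain ⟨Δ, d1, d2, d3⟩ := h1 {(a.imp b).imp a, (b.imp .zero).imp a}
    (((c.mul (c.mul a)).imp .zero).imp (c.imp a)) fun A _ p v h => (imp_one _ _).2 (key p _
      ((imp_one _ _).1 (h _ (.inr (.inl rfl)))) ((imp_one _ _).1 (h _ (.inr (.inr rfl)))))
  let v : ℕ → B := fun n => if n = 0 then (2 : Fin 4) else (1 : Fin 4)
  let w : ℕ → L := fun n => if n = 0 then (2 : Fin 5) else (3 : Fin 5)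
  let R : B → L → Prop := fun x y => x = ⊥ ∧ y = ⊥ ∨ x = 1 ∧ y = 1 ∨ x = v 0 ∧ y = w 0
  have r : ∀ x y x' y', R x y → R x' y' → R (x ⊓ x') (y ⊓ y') ∧ R (x ⊔ x') (y ⊔ y') ∧
      R (x * x') (y * y') ∧ R (FLew.imp x x') (FLew.imp y y') := by
    rintro _ _ _ _ (⟨rfl, rfl⟩ | ⟨rfl, rfl⟩ | ⟨rfl, rfl⟩) (⟨rfl, rfl⟩ | ⟨rfl, rfl⟩ | ⟨rfl, rfl⟩) <;>
      decide
  have k : ∀ d, vars d ⊆ {0} → R (ev v d) (ev w d) := fun d hd => by
    induction d with
    | var n => obtain rfl : n = 0 := hd rfl; exact .inr (.inr ⟨rfl, rfl⟩)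
    | zero => exact .inl ⟨rfl, rfl⟩
    | one => exact .inr (.inl ⟨rfl, rfl⟩)
    | _ x y i j =>
      have := r _ _ _ _ (i (Set.union_subset_iff.1 hd).1) (j (Set.union_subset_iff.1 hd).2)
      simp only [ev, this]
  refine absurd ((gL.cons _ _).1 (h2 _ gL.closed gL.dip _ _ d3) _ ⟨w, rfl⟩ fun d hd => ?_)
    (by unfold tr; decide)
  have e : ev v d = 1 := (gB.cons _ _).1 (h2 _ gB.closed gB.dip _ _ (d2 d hd)) _ ⟨v, rfl⟩
    (by rintro _ (rfl | rfl) <;> unfold tr <;> decide)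
  have := k d ((d1 d hd).trans fun n hn => by simp [vars, a, b, c] at hn ⊢; omega)
  rw [e] at this
  change ev w d = 1
  revert this
  generalize ev w d = y
  revert y
  decide

end Pool.Agent.Results.MP_acc005_lc.NoLeast
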